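import Pool.Agent.Helper63.PG.Alg

set_option autoImplicit false

namespace Pool.Agent.Helper41.PG

open Pool.Agent.Helper63.PG Pool.Agent.Helper63.OC Pool.Agent.Helper24.OCM

/-- MODULE GNO. -/
theorem hGNO {K k : ℕ} {G : SimpleGraph ℕ} (hN : NOH G) (hO : OneLayer)
    (hD : ∀ u v, (G3 K k G).Adj u v →
      hasp (H1 K G) u ∧ hasp (H1 K G) v ∧ anc K G u = anc K G v ∧ tt K G u = tt K G v ∧
      lay G (anc K G u) (tt K G u) u = lay G (anc K G v) (tt K G v) v ∧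
      cc k G (anc K G u) (tt K G u) u = cc k G (anc K G v) (tt K G v) v)
    (hL : ∀ x τ i c, Lay G {w | w ≤ τ ∧ nr G τ x w i}
      {w | w ≤ τ ∧ nr G τ x w (i + 1) ∧ ¬ nr G τ x w i ∧ kc k G τ w = c}
      (UU K k G x τ (i + 1) c))
    (hR : ∀ x τ c, (∀ u ∈ UU K k G x τ 0 c, G.Adj x u) ∧
      (∀ u ∈ UU K k G x τ 0 c, ∀ v ∈ UU K k G x τ 0 c, lab K k G u = lab K k G v →
        ((Gm K k G).Adj u v ↔ G.Adj u v)) ∧
      (∀ i, ∀ u ∈ UU K k G x τ (i + 1) c, ∀ v ∈ UU K k G x τ (i + 1) c,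
        lab K k G u = lab K k G v →
        ((Gm K k G).Adj u v ↔
          (Gam G {w | w ≤ τ ∧ nr G τ x w (i + 1) ∧ ¬ nr G τ x w i ∧ kc k G τ w = c}
            (UU K k G x τ (i + 1) c)).Adj u v))) : NOH (Gm K k G) := by
  intro L hodd h5 f hf
  have hstep : ∀ j, j + 1 < L → (Gm K k G).Adj (f j) (f (j + 1)) := fun j hj =>
    (hf j (j + 1) (by omega) hj).mpr (Or.inl rfl)
  have hdat : ∀ j, j < L →
      f j ∈ UU K k G (anc K G (f 0)) (tt K G (f 0)) (lay G (anc K G (f 0)) (tt K G (f 0)) (f 0))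
        (cc k G (anc K G (f 0)) (tt K G (f 0)) (f 0)) ∧ lab K k G (f j) = lab K k G (f 0) := by
    intro j
    induction j with
    | zero =>
      intro _
      exact ⟨⟨(hD _ _ (hstep 0 (by omega)).1).1, rfl, rfl, rfl, rfl⟩, rfl⟩
    | succ j ih =>
      intro hj
      obtain ⟨⟨a1, a2, a3, a4, a5⟩, a6⟩ := ih (by omega)
      have hs := (hstep j hj).1
      obtain ⟨b1, b2, b3, b4, b5, b6⟩ := hD _ _ hs
      have e1 : anc K G (f (j + 1)) = anc K G (f 0) := b3.symm.trans a2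
      have e2 : tt K G (f (j + 1)) = tt K G (f 0) := b4.symm.trans a3
      refine ⟨⟨b2, e1, e2, ?_, ?_⟩, (hs.2.symm).trans a6⟩
      · rw [← a4, ← e1, ← e2, ← b5, b3, b4]
      · rw [← a5, ← e1, ← e2, ← b6, b3, b4]
  rcases hi : lay G (anc K G (f 0)) (tt K G (f 0)) (f 0) with _ | i
  · rw [hi] at hdat
    refine hN L hodd h5 f ?_
    intro a b hab hb
    rw [← (hR _ _ _).2.1 _ (hdat a (by omega)).1 _ (hdat b hb).1
      ((hdat a (by omega)).2.trans (hdat b hb).2.symm)]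
    exact hf a b hab hb
  · rw [hi] at hdat
    refine (hO _ _ _ _ (hL (anc K G (f 0)) (tt K G (f 0)) i
      (cc k G (anc K G (f 0)) (tt K G (f 0)) (f 0)))).1 L hodd h5 f ?_
    intro a b hab hb
    rw [← (hR _ _ _).2.2 i _ (hdat a (by omega)).1 _ (hdat b hb).1
      ((hdat a (by omega)).2.trans (hdat b hb).2.symm)]
    exact hf a b hab hb

end Pool.Agent.Helper41.PG
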