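import Pool.Agent.Helper63.PG.Alg

set_option autoImplicit false

namespace Pool.Agent.Helper41.PG

open Pool.Agent.Helper63.PG Pool.Agent.Helper63.OC Pool.Agent.Helper24.OCM

theorem sam_aux {K k : ℕ} {G : SimpleGraph ℕ} (hA : AncS K G) (hT : TauS (H1 K G)) {u v : ℕ}
    (huv : u < v) (hadj : (G3 K k G).Adj u v) :
    hasp (H1 K G) u ∧ hasp (H1 K G) v ∧ anc K G u = anc K G v ∧ tt K G u = tt K G v ∧
    lay G (anc K G u) (tt K G u) u = lay G (anc K G v) (tt K G v) v ∧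
    cc k G (anc K G u) (tt K G u) u = cc k G (anc K G v) (tt K G v) v := by
  obtain ⟨hG, hlab⟩ := hadj
  have h1 : lab1 K G u = lab1 K G v := congrArg (fun p : Lab => p.1) hlab
  have h2 : lab2 (H1 K G) u = lab2 (H1 K G) v := congrArg (fun p : Lab => p.2.1) hlab
  have h3 := congrArg (fun p : Lab => p.2.2) hlab
  obtain ⟨hu, hv, ht⟩ := hT.2 u v huv ⟨hG, h1⟩ h2
  have ha := hA.2 u v huv hG h1
  simp only [lab, if_pos hu, if_pos hv, Prod.mk.injEq] at h3
  exact ⟨hu, hv, ha, ht, h3.1, h3.2⟩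

/-- MODULE SAM. -/
theorem hSAM {K k : ℕ} {G : SimpleGraph ℕ} (hA : AncS K G) (hT : TauS (H1 K G)) {u v : ℕ}
    (hadj : (G3 K k G).Adj u v) :
    hasp (H1 K G) u ∧ hasp (H1 K G) v ∧ anc K G u = anc K G v ∧ tt K G u = tt K G v ∧
    lay G (anc K G u) (tt K G u) u = lay G (anc K G v) (tt K G v) v ∧
    cc k G (anc K G u) (tt K G u) u = cc k G (anc K G v) (tt K G v) v := by
  rcases Nat.lt_trichotomy u v with h | h | h
  · exact sam_aux hA hT h hadj
  · subst h
    exact absurd hadj ((G3 K k G).loopless.irrefl _)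
  · obtain ⟨a, b, c, d, e, f⟩ := sam_aux hA hT h hadj.symm
    exact ⟨b, a, c.symm, d.symm, e.symm, f.symm⟩

end Pool.Agent.Helper41.PG
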