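import Pool.Agent.Helper63.PG.Alg

set_option autoImplicit false

namespace Pool.Agent.Helper41.PG

open Pool.Agent.Helper63.PG Pool.Agent.Helper63.OC Pool.Agent.Helper24.OCM

/-- MODULE VSP. -/
theorem hVSP {K k : ℕ} {G : SimpleGraph ℕ} (hA : AncS K G) (hT : TauS (H1 K G)) {v : ℕ}
    (h : hasp (H1 K G) v) : Vs K k G v := by
  obtain ⟨⟨hlt, hadj⟩, hle, htlt⟩ := hT.1 v h
  obtain ⟨hG, hlab⟩ := hadj
  have hanc : anc K G (fn (H1 K G) v) = anc K G v := hA.2 _ v hlt hG.symm hlab.symm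
  obtain ⟨hwle, hwnr⟩ := hA.1 (fn (H1 K G) v)
  have hci : ci K G (fn (H1 K G) v) = ci K G v :=
    (congrArg (fun p : (ℕ × ℕ) × ℕ => p.1.1) hlab).symm
  have hnr : nr G (tt K G v) (anc K G v) (fn (H1 K G) v) (2 * rr (ci K G v)) := by
    rw [← hanc, ← hci]
    exact nr_symm (nr_time hwnr hle)
  have hmem := Nat.sInf_mem (s := {r | ∃ w, w ≤ tt K G v ∧ G.Adj v w ∧
    nr G (tt K G v) (anc K G v) w r}) ⟨_, _, hle, hG, hnr⟩
  obtain ⟨w', h1, h2, h3⟩ := hmem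
  have hmem2 := Nat.sInf_mem (s := {c | ∃ w, w ≤ tt K G v ∧ G.Adj v w ∧
    nr G (tt K G v) (anc K G v) w (lay G (anc K G v) (tt K G v) v) ∧ kc k G (tt K G v) w = c})
    ⟨_, w', h1, h2, h3, rfl⟩
  obtain ⟨w2, g1, g2, g3, g4⟩ := hmem2
  refine ⟨?_, htlt, ?_, ?_, ⟨w2, g1, g2, g3, g4⟩⟩
  · rw [← hanc]
    exact hwle.trans hle
  · exact Nat.sInf_le ⟨_, hle, hG, hnr⟩
  · intro w r hw1 hw2 hw3
    exact Nat.sInf_le ⟨w, hw1, hw2, hw3⟩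

end Pool.Agent.Helper41.PG
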